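import Mathlib.Analysis.Calculus.SmoothSeries
import Mathlib.Analysis.SpecialFunctions.Gamma.Deriv
import Mathlib.Analysis.SpecialFunctions.Pow.Deriv
import Mathlib.Analysis.SpecialFunctions.Exponential
import Mathlib.Analysis.SpecialFunctions.Trigonometric.ArctanDeriv
import Mathlib.Analysis.SpecialFunctions.Log.Deriv
import Mathlib.Analysis.SpecialFunctions.Gamma.Basic
import Mathlib.Tactic

/-! The Bessel functions of real order `ν > -1` on the positive half line. -/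

open Set Filter Topology

namespace Pool.Agent.Q161.Bes

/-- The Bessel function of the first kind `J_ν(x)` for `x > 0`. -/
noncomputable def besselJ (ν x : ℝ) : ℝ :=
  (x / 2) ^ ν * ∑' k : ℕ, (-1) ^ k / (k.factorial * Real.Gamma (ν + k + 1)) * (x ^ 2 / 4) ^ k

/-- The coefficients. -/
noncomputable def cf (ν : ℝ) (k : ℕ) : ℝ := (-1) ^ k / (k.factorial * Real.Gamma (ν + k + 1))

/-- The entire function `G_ν(t) = ∑ (-t)^k / (k! Γ(ν+k+1))`. -/
noncomputable def G (ν t : ℝ) : ℝ := ∑' k : ℕ, cf ν k * t ^ k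

lemma besselJ_eq (ν x : ℝ) : besselJ ν x = (x / 2) ^ ν * G ν (x ^ 2 / 4) := rfl

lemma gam_pos {ν : ℝ} (hν : -1 < ν) (k : ℕ) : 0 < Real.Gamma (ν + k + 1) :=
  Real.Gamma_pos_of_pos (by have : (0:ℝ) ≤ k := Nat.cast_nonneg k; linarith)

lemma gam_lower {ν : ℝ} (hν : -1 < ν) : ∃ c : ℝ, 0 < c ∧ ∀ k : ℕ, c ≤ Real.Gamma (ν + k + 1) := by
  have h0 : 0 < Real.Gamma (ν + 1) := Real.Gamma_pos_of_pos (by linarith)
  have h1 : 0 < Real.Gamma (ν + 1 + 1) := Real.Gamma_pos_of_pos (by linarith)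
  refine ⟨min (Real.Gamma (ν + 1)) (Real.Gamma (ν + 1 + 1)), lt_min h0 h1, ?_⟩
  have key : ∀ k : ℕ, Real.Gamma (ν + 1 + 1) ≤ Real.Gamma (ν + (k + 1 : ℕ) + 1) := by
    intro k
    induction k with
    | zero => simp [add_assoc]
    | succ k ih =>
      have e : ν + ((k + 1 + 1 : ℕ) : ℝ) + 1 = (ν + (k + 1 : ℕ) + 1) + 1 := by push_cast; ring
      have hp : 0 < ν + ((k + 1 : ℕ) : ℝ) + 1 := by
        have : (0:ℝ) ≤ ((k + 1 : ℕ) : ℝ) := Nat.cast_nonneg _
        linarith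
      rw [e, Real.Gamma_add_one hp.ne']
      have h2 : 1 ≤ ν + ((k + 1 : ℕ) : ℝ) + 1 := by push_cast; have : (0:ℝ) ≤ k := Nat.cast_nonneg k
                                                    linarith
      have h3 : 0 < Real.Gamma (ν + ((k + 1 : ℕ) : ℝ) + 1) := Real.Gamma_pos_of_pos hp
      nlinarith
  intro k
  cases k with
  | zero => exact (min_le_left _ _).trans (by simp)
  | succ k => exact (min_le_right _ _).trans (key k)

lemma cf_bound {ν : ℝ} (hν : -1 < ν) : ∃ C : ℝ, 0 ≤ C ∧ ∀ k : ℕ, |cf ν k| ≤ C / k.factorial := by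
  obtain ⟨c, hc, h⟩ := gam_lower hν
  refine ⟨1 / c, by positivity, fun k => ?_⟩
  have hf : (0:ℝ) < k.factorial := by exact_mod_cast k.factorial_pos
  unfold cf
  rw [abs_div, abs_pow, abs_neg, abs_one, one_pow, abs_of_pos (mul_pos hf (gam_pos hν k)), div_div]
  apply one_div_le_one_div_of_le (mul_pos hc hf)
  have := h k
  nlinarith

lemma ps_summable {c : ℕ → ℝ} {C : ℝ} (hc : ∀ k, |c k| ≤ C / k.factorial) (t : ℝ) :
    Summable (fun k : ℕ => c k * t ^ k) := by
  refine Summable.of_norm_bounded (g := fun k : ℕ => C * (|t| ^ k / k.factorial))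
    ((Real.summable_pow_div_factorial |t|).mul_left C) fun k => ?_
  rw [Real.norm_eq_abs, abs_mul, abs_pow]
  calc |c k| * |t| ^ k ≤ C / k.factorial * |t| ^ k :=
        mul_le_mul_of_nonneg_right (hc k) (by positivity)
    _ = _ := by ring

lemma ps_deriv {c : ℕ → ℝ} {C : ℝ} (hc : ∀ k, |c k| ≤ C / k.factorial) (t : ℝ) :
    HasDerivAt (fun t => ∑' k : ℕ, c k * t ^ k) (∑' k : ℕ, ((k : ℝ) + 1) * c (k + 1) * t ^ k) t := by
  set R : ℝ := |t| + 1 with hR
  have hR0 : 0 < R := by positivity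
  have hC : 0 ≤ C := by have := (abs_nonneg _).trans (hc 0); simpa using this
  have hu : Summable (fun k : ℕ => |c k| * (k * R ^ (k - 1))) := by
    rw [← summable_nat_add_iff 1]
    refine Summable.of_nonneg_of_le (fun k => by positivity) (fun k => ?_)
      ((Real.summable_pow_div_factorial R).mul_left C)
    have h1 := hc (k + 1)
    have hf : (0:ℝ) < k.factorial := by exact_mod_cast k.factorial_pos
    rw [Nat.add_sub_cancel]
    calc |c (k + 1)| * (((k + 1 : ℕ) : ℝ) * R ^ k)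
        ≤ C / (k + 1).factorial * (((k + 1 : ℕ) : ℝ) * R ^ k) :=
          mul_le_mul_of_nonneg_right h1 (by positivity)
      _ = C * (R ^ k / k.factorial) := by
          rw [Nat.factorial_succ]
          have h2 : ((k + 1 : ℕ) : ℝ) ≠ 0 := by positivity
          push_cast at h2 ⊢
          field_simp
  have := hasDerivAt_tsum_of_isPreconnected (𝕜 := ℝ) (t := Metric.ball (0:ℝ) R)
    (g := fun (k : ℕ) (y : ℝ) => c k * y ^ k) (g' := fun (k : ℕ) (y : ℝ) => c k * (k * y ^ (k - 1)))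
    (y₀ := 0) (y := t) hu Metric.isOpen_ball
    (convex_ball (0:ℝ) R).isPreconnected
    (fun k y _ => (hasDerivAt_pow k y).const_mul (c k))
    (fun k y hy => by
      rw [norm_mul, norm_mul, norm_pow, Real.norm_eq_abs, Real.norm_eq_abs, Real.norm_eq_abs,
        Nat.abs_cast]
      have hy' : |y| < R := by simpa using hy
      gcongr)
    (by simpa using hR0) (ps_summable hc 0)
    (by simp [hR])
  refine this.congr_deriv ?_
  have hs : Summable (fun k : ℕ => c k * (k * t ^ (k - 1))) := by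
    refine Summable.of_norm_bounded hu fun k => ?_
    rw [norm_mul, norm_mul, norm_pow, Real.norm_eq_abs, Real.norm_eq_abs, Real.norm_eq_abs,
        Nat.abs_cast]
    have : |t| ≤ R := by rw [hR]; linarith
    gcongr
  rw [hs.tsum_eq_zero_add]
  simp only [Nat.cast_zero, zero_mul, mul_zero, zero_add, Nat.add_sub_cancel]
  refine tsum_congr fun k => ?_
  push_cast
  ring

lemma cf_succ {ν : ℝ} (hν : -1 < ν) (k : ℕ) : ((k : ℝ) + 1) * cf ν (k + 1) = - cf (ν + 1) k := by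
  unfold cf
  have hf : ((k.factorial : ℕ) : ℝ) ≠ 0 := by exact_mod_cast k.factorial_ne_zero
  have hk : ((k : ℝ) + 1) ≠ 0 := by positivity
  have e : ν + ((k + 1 : ℕ) : ℝ) + 1 = ν + 1 + k + 1 := by push_cast; ring
  rw [e, Nat.factorial_succ, pow_succ]
  have hg : Real.Gamma (ν + 1 + k + 1) ≠ 0 := (gam_pos (by linarith) k).ne'
  push_cast
  field_simp

lemma G_deriv {ν : ℝ} (hν : -1 < ν) (t : ℝ) : HasDerivAt (G ν) (-G (ν + 1) t) t := by
  obtain ⟨C, _, h⟩ := cf_bound hν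
  refine (ps_deriv h t).congr_deriv ?_
  unfold G
  rw [← tsum_neg]
  refine tsum_congr fun k => ?_
  rw [cf_succ hν]
  ring

/-- `G_ν(t) = (ν+1) G_{ν+1}(t) - t G_{ν+2}(t)`. -/
lemma G_rec {ν : ℝ} (hν : -1 < ν) (t : ℝ) :
    G ν t = (ν + 1) * G (ν + 1) t - t * G (ν + 1 + 1) t := by
  obtain ⟨C1, _, h1⟩ := cf_bound (ν := ν + 1) (by linarith)
  obtain ⟨C2, _, h2⟩ := cf_bound (ν := ν + 1 + 1) (by linarith)
  obtain ⟨C0, _, h0⟩ := cf_bound (ν := ν) (by linarith)
  have s1 := ps_summable h1 t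
  have s2 := ps_summable h2 t
  have s0 := ps_summable h0 t
  unfold G
  rw [s0.tsum_eq_zero_add, s1.tsum_eq_zero_add, mul_add, ← tsum_mul_left, ← tsum_mul_left,
    add_sub_assoc, ← Summable.tsum_sub (((summable_nat_add_iff 1).2 s1).mul_left _) (s2.mul_left _)]
  congr 1
  · unfold cf
    have e : ν + 1 + ((0:ℕ):ℝ) + 1 = (ν + ((0:ℕ):ℝ) + 1) + 1 := by push_cast; ring
    have hp : 0 < ν + ((0:ℕ):ℝ) + 1 := by push_cast; linarith
    have hg : Real.Gamma (ν + ((0:ℕ):ℝ) + 1) ≠ 0 := (Real.Gamma_pos_of_pos hp).ne'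
    rw [e, Real.Gamma_add_one hp.ne']
    have hp' := hp.ne'
    push_cast at hp' hg ⊢
    simp only [add_zero] at hp' hg ⊢
    field_simp
  · refine tsum_congr fun k => ?_
    unfold cf
    have hf : ((k.factorial : ℕ) : ℝ) ≠ 0 := by exact_mod_cast k.factorial_ne_zero
    have hk : ((k : ℝ) + 1) ≠ 0 := by positivity
    have hp : 0 < ν + ((k + 1 : ℕ) : ℝ) + 1 := by
      have : (0:ℝ) ≤ ((k + 1 : ℕ) : ℝ) := Nat.cast_nonneg _
      linarith
    have e1 : ν + 1 + ((k + 1 : ℕ) : ℝ) + 1 = (ν + ((k + 1 : ℕ) : ℝ) + 1) + 1 := by ring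
    have e2 : ν + 1 + 1 + (k : ℝ) + 1 = (ν + ((k + 1 : ℕ) : ℝ) + 1) + 1 := by push_cast; ring
    have hg : Real.Gamma (ν + ((k + 1 : ℕ) : ℝ) + 1) ≠ 0 := (Real.Gamma_pos_of_pos hp).ne'
    rw [e1, e2, Real.Gamma_add_one hp.ne', Nat.factorial_succ, pow_succ, pow_succ]
    have hp' := hp.ne'
    push_cast at hp' hg ⊢
    field_simp
    ring

end Pool.Agent.Q161.Bes
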