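import Pool.Agent.Q161.Bes.Ser

/-! The first order system satisfied by `J_ν` and `x J_ν'`. -/

open Set Filter Topology

namespace Pool.Agent.Q161.Bes

/-- `U = x J_ν'(x) = ν J_ν - x J_{ν+1}`. -/
noncomputable def U (ν x : ℝ) : ℝ := ν * besselJ ν x - x * besselJ (ν + 1) x

lemma pw {ν x : ℝ} (hx : 0 < x) : HasDerivAt (fun x : ℝ => (x / 2) ^ ν) (ν / x * (x / 2) ^ ν) x := by
  have h2 : (0:ℝ) < x / 2 := by positivity
  have := ((hasDerivAt_id' x).div_const 2).rpow_const (p := ν) (Or.inl h2.ne')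
  refine this.congr_deriv ?_
  rw [Real.rpow_sub_one h2.ne']
  field_simp

lemma Gx {ν : ℝ} (hν : -1 < ν) (x : ℝ) :
    HasDerivAt (fun x : ℝ => G ν (x ^ 2 / 4)) (-(G (ν + 1) (x ^ 2 / 4)) * (x / 2)) x := by
  have h1 : HasDerivAt (fun x : ℝ => x ^ 2 / 4) (x / 2) x := by
    refine ((hasDerivAt_pow 2 x).div_const 4).congr_deriv ?_
    push_cast; ring
  exact (G_deriv hν (x ^ 2 / 4)).comp x h1

lemma bes_succ {ν x : ℝ} (hx : 0 < x) :
    besselJ (ν + 1) x = (x / 2) ^ ν * (x / 2) * G (ν + 1) (x ^ 2 / 4) := by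
  rw [besselJ_eq, Real.rpow_add_one (by positivity)]

lemma bes_pred {ν x : ℝ} (hx : 0 < x) :
    besselJ (ν - 1) x = (x / 2) ^ ν / (x / 2) * G (ν - 1) (x ^ 2 / 4) := by
  rw [besselJ_eq, Real.rpow_sub_one (by positivity)]

lemma J_deriv {ν : ℝ} (hν : -1 < ν) {x : ℝ} (hx : 0 < x) :
    HasDerivAt (besselJ ν) (U ν x / x) x := by
  have := (pw (ν := ν) hx).mul (Gx hν x)
  refine HasDerivAt.congr_deriv (f := besselJ ν) this ?_
  rw [U, bes_succ hx, besselJ_eq]
  field_simp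
  ring

lemma U_eq {ν x : ℝ} (hx : 0 < x) :
    U ν x = (x / 2) ^ ν * (ν * G ν (x ^ 2 / 4) - x ^ 2 / 2 * G (ν + 1) (x ^ 2 / 4)) := by
  rw [U, bes_succ hx, besselJ_eq]
  ring

lemma U_deriv {ν : ℝ} (hν : -1 < ν) {x : ℝ} (hx : 0 < x) :
    HasDerivAt (U ν) ((ν ^ 2 - x ^ 2) * besselJ ν x / x) x := by
  have h1 : HasDerivAt (fun x : ℝ => x ^ 2 / 2) x x := by
    refine ((hasDerivAt_pow 2 x).div_const 2).congr_deriv ?_
    push_cast; ring
  have h2 := (pw (ν := ν) hx).mul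
    (((Gx hν x).const_mul ν).sub (h1.mul (Gx (ν := ν + 1) (by linarith) x)))
  have h3 : HasDerivAt (U ν) _ x := h2.congr_of_eventuallyEq (by
    filter_upwards [Ioi_mem_nhds hx] with y hy
    rw [U_eq hy]
    rfl)
  refine h3.congr_deriv ?_
  rw [besselJ_eq, G_rec hν (x ^ 2 / 4)]
  simp only [Pi.mul_apply, Pi.sub_apply]
  rw [G_rec hν (x ^ 2 / 4)]
  field_simp
  ring

/-- `J_{ν+1} = (ν J - U)/x`. -/
lemma J_succ {ν x : ℝ} (hx : 0 < x) : besselJ (ν + 1) x = (ν * besselJ ν x - U ν x) / x := by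
  rw [U]; field_simp; ring

/-- `J_{ν-1} = (ν J + U)/x`. -/
lemma J_pred {ν x : ℝ} (hν : 0 < ν) (hx : 0 < x) :
    besselJ (ν - 1) x = (ν * besselJ ν x + U ν x) / x := by
  have h := G_rec (ν := ν - 1) (by linarith) (x ^ 2 / 4)
  rw [sub_add_cancel] at h
  rw [U, bes_pred hx, h, bes_succ hx, besselJ_eq]
  field_simp
  ring

/-- `J_ν > 0` on `(0, 1]`. -/
lemma J_pos {ν : ℝ} (hν : 0 < ν) {x : ℝ} (hx : 0 < x) (hx1 : x ≤ 1) : 0 < besselJ ν x := by
  rw [besselJ_eq]
  apply mul_pos (by positivity)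
  set t := x ^ 2 / 4 with ht
  have ht0 : 0 ≤ t := by positivity
  have ht1 : t ≤ 1 / 4 := by rw [ht]; nlinarith
  obtain ⟨C, _, hC⟩ := cf_bound (ν := ν) (by linarith)
  have hs := ps_summable hC t
  unfold G
  rw [hs.tsum_eq_zero_add]
  have hg0 : 0 < Real.Gamma (ν + 1) := Real.Gamma_pos_of_pos (by linarith)
  have c0 : cf ν 0 = 1 / Real.Gamma (ν + 1) := by simp [cf]
  -- the coefficients decrease
  have hd : ∀ k : ℕ, |cf ν k| ≤ 1 / Real.Gamma (ν + 1) := by
    intro k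
    induction k with
    | zero => rw [c0, abs_of_pos (by positivity)]
    | succ k ih =>
      have h1 := cf_succ (ν := ν) (by linarith) k
      have hf : (0:ℝ) < k.factorial := by exact_mod_cast k.factorial_pos
      have hgk := gam_pos (ν := ν) (by linarith) k
      have hp : 0 < ν + (k : ℝ) + 1 := by have : (0:ℝ) ≤ k := Nat.cast_nonneg k; linarith
      have e : ν + ((k + 1 : ℕ) : ℝ) + 1 = (ν + k + 1) + 1 := by push_cast; ring
      have h2 : |cf ν (k + 1)| ≤ |cf ν k| := by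
        unfold cf
        rw [abs_div, abs_div, abs_pow, abs_pow, abs_neg, abs_one, one_pow, one_pow, e,
          Real.Gamma_add_one hp.ne', Nat.factorial_succ]
        have a1 : 0 < (k.factorial : ℝ) * Real.Gamma (ν + k + 1) := by positivity
        rw [abs_of_pos a1, abs_of_pos (by push_cast; positivity)]
        apply one_div_le_one_div_of_le a1
        push_cast
        have b1 : (1:ℝ) ≤ (k:ℝ) + 1 := by have : (0:ℝ) ≤ k := Nat.cast_nonneg k; linarith
        have b2 : (1:ℝ) ≤ ν + k + 1 := by have : (0:ℝ) ≤ k := Nat.cast_nonneg k; linarith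
        calc (k.factorial : ℝ) * Real.Gamma (ν + k + 1)
            = (1 * (k.factorial : ℝ)) * (1 * Real.Gamma (ν + k + 1)) := by ring
          _ ≤ _ := by gcongr
      exact h2.trans ih
  have hs1 := (summable_nat_add_iff 1).2 hs
  have hgeo : Summable (fun k : ℕ => 1 / Real.Gamma (ν + 1) * (1 / 4) * (1 / 4 : ℝ) ^ k) :=
    (summable_geometric_of_lt_one (by norm_num) (by norm_num)).mul_left _
  have hb : |∑' k : ℕ, cf ν (k + 1) * t ^ (k + 1)| ≤ 1 / Real.Gamma (ν + 1) * (1 / 3) := by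
    have := tsum_of_norm_bounded (f := fun k : ℕ => cf ν (k + 1) * t ^ (k + 1)) hgeo.hasSum
      (fun k => by
        rw [Real.norm_eq_abs, abs_mul, abs_pow, abs_of_nonneg ht0, mul_assoc, ← pow_succ']
        exact mul_le_mul (hd (k + 1)) (pow_le_pow_left₀ ht0 ht1 _) (by positivity) (by positivity))
    rw [tsum_mul_left, tsum_geometric_of_lt_one (by norm_num) (by norm_num), Real.norm_eq_abs] at this
    refine this.trans (le_of_eq ?_)
    norm_num
    ring
  have h3 := (abs_le.1 hb).1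
  rw [c0, pow_zero, mul_one]
  have : 0 < 1 / Real.Gamma (ν + 1) := by positivity
  linarith

end Pool.Agent.Q161.Bes
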