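import Pool.Agent.Q161.Bes.Sys
import Mathlib.Analysis.Calculus.MeanValue
import Mathlib.Topology.Algebra.Order.LiminfLimsup

/-! Zeros of solutions of the Bessel system and critical points of the Turán ratio. -/

open Set Filter Topology

namespace Pool.Agent.Q161.Bes

/-- A solution `(J, xJ')` of Bessel's equation with positive `x²Δ`. -/
structure Sys (ν : ℝ) (J U : ℝ → ℝ) : Prop where
  dJ : ∀ x, 0 < x → HasDerivAt J (U x / x) x
  dU : ∀ x, 0 < x → HasDerivAt U ((ν ^ 2 - x ^ 2) * J x / x) x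
  spos : ∀ x, 0 < x → 0 < (x ^ 2 - ν ^ 2) * J x ^ 2 + U x ^ 2

/-- `xJ'/J` -/
noncomputable def Y (J U : ℝ → ℝ) (x : ℝ) : ℝ := U x / J x

/-- `x² Δ / J²` -/
noncomputable def S (ν : ℝ) (J U : ℝ → ℝ) (x : ℝ) : ℝ := x ^ 2 - ν ^ 2 + Y J U x ^ 2

/-- the numerator of `Φ'` -/
noncomputable def T (ν : ℝ) (J U : ℝ → ℝ) (x : ℝ) : ℝ := x ^ 2 - S ν J U x * (1 + Y J U x)

namespace Sys

variable {ν : ℝ} {J U : ℝ → ℝ}

lemma neg (h : Sys ν J U) : Sys ν (fun x => -J x) (fun x => -U x) := by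
  refine ⟨fun x hx => ?_, fun x hx => ?_, fun x hx => ?_⟩
  · exact (h.dJ x hx).neg.congr_deriv (by ring)
  · exact (h.dU x hx).neg.congr_deriv (by ring)
  · have := h.spos x hx
    simpa using this

lemma Y_neg (x : ℝ) : Y (fun x => -J x) (fun x => -U x) x = Y J U x := by
  simp [Y]

lemma T_neg (x : ℝ) : T ν (fun x => -J x) (fun x => -U x) x = T ν J U x := by
  simp only [T, S, Y_neg]

lemma dY (h : Sys ν J U) {x : ℝ} (hx : 0 < x) (hJ : J x ≠ 0) :
    HasDerivAt (Y J U) (-S ν J U x / x) x := by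
  refine ((h.dU x hx).div (h.dJ x hx) hJ).congr_deriv ?_
  unfold S Y
  field_simp
  ring

lemma dS (h : Sys ν J U) {x : ℝ} (hx : 0 < x) (hJ : J x ≠ 0) :
    HasDerivAt (S ν J U) (2 * x - 2 * Y J U x * S ν J U x / x) x := by
  have h1 := ((hasDerivAt_pow 2 x).sub_const (ν ^ 2)).add ((h.dY hx hJ).pow 2)
  refine HasDerivAt.congr_deriv (f := S ν J U) h1 ?_
  push_cast
  ring

lemma dT (h : Sys ν J U) {x : ℝ} (hx : 0 < x) (hJ : J x ≠ 0) :
    HasDerivAt (T ν J U)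
      (2 * x - ((2 * x - 2 * Y J U x * S ν J U x / x) * (1 + Y J U x)
        + S ν J U x * (-S ν J U x / x))) x := by
  have h1 := (hasDerivAt_pow 2 x).sub ((h.dS hx hJ).mul ((h.dY hx hJ).const_add 1))
  refine HasDerivAt.congr_deriv (f := T ν J U) h1 ?_
  push_cast
  ring

lemma dT_pos {x : ℝ} (hx : 0 < x) (hT : T ν J U x = 0) :
    0 < 2 * x - ((2 * x - 2 * Y J U x * S ν J U x / x) * (1 + Y J U x)
        + S ν J U x * (-S ν J U x / x)) := by
  have h1 : S ν J U x * (1 + Y J U x) = x ^ 2 := by unfold T at hT; linarith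
  have hS : S ν J U x ≠ 0 := by
    intro h0
    rw [h0, zero_mul] at h1
    have := pow_pos hx 2
    linarith
  have h2 : 2 * x - ((2 * x - 2 * Y J U x * S ν J U x / x) * (1 + Y J U x)
        + S ν J U x * (-S ν J U x / x)) = S ν J U x ^ 2 / x := by
    have e : 2 * Y J U x * S ν J U x / x * (1 + Y J U x) = 2 * Y J U x * x := by
      rw [div_mul_eq_mul_div, mul_assoc, h1]
      field_simp
    rw [sub_mul, e]
    field_simp
    ring
  rw [h2]
  positivity

lemma dPhi (h : Sys ν J U) {x : ℝ} (hx : 0 < x) (hJ : J x ≠ 0) :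
    HasDerivAt (fun x => S ν J U x / x ^ 2) (2 / x ^ 3 * T ν J U x) x := by
  have h1 := (h.dS hx hJ).div (hasDerivAt_pow 2 x) (by positivity)
  refine h1.congr_deriv ?_
  unfold T
  push_cast
  field_simp
  ring

lemma uniq (h : Sys ν J U) {a b : ℝ} (ha : 0 ≤ a) (hne : ∀ x ∈ Ioo a b, J x ≠ 0) {x₁ x₂ : ℝ}
    (h₁ : x₁ ∈ Ioo a b) (h₂ : x₂ ∈ Ioo a b) (t₁ : T ν J U x₁ = 0) (t₂ : T ν J U x₂ = 0) :
    x₁ = x₂ := by
  wlog hlt : x₁ < x₂ generalizing x₁ x₂
  · rcases eq_or_lt_of_le (not_lt.1 hlt) with h' | h'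
    · exact h'.symm
    · exact (this h₂ h₁ t₂ t₁ h').symm
  exfalso
  have pos : ∀ x ∈ Ioo a b, 0 < x := fun x hx => ha.trans_lt hx.1
  have sub : Icc x₁ x₂ ⊆ Ioo a b := fun y hy => ⟨h₁.1.trans_le hy.1, hy.2.trans_lt h₂.2⟩
  have hge := image_le_of_deriv_right_lt_deriv_boundary' (f := fun _ => (0:ℝ)) (f' := fun _ => 0)
    (a := x₁) (b := x₂) continuousOn_const (fun x _ => hasDerivWithinAt_const _ _ _)
    (B := T ν J U) (B' := fun x => 2 * x - ((2 * x - 2 * Y J U x * S ν J U x / x) * (1 + Y J U x)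
        + S ν J U x * (-S ν J U x / x))) t₁.ge
    (fun x hx => (h.dT (pos x (sub hx)) (hne x (sub hx))).continuousAt.continuousWithinAt)
    (fun x hx => (h.dT (pos x (sub (Ico_subset_Icc_self hx)))
      (hne x (sub (Ico_subset_Icc_self hx)))).hasDerivWithinAt)
    (fun x hx hT => dT_pos (pos x (sub (Ico_subset_Icc_self hx))) hT.symm)
  have hd := h.dT (pos _ h₂) (hne _ h₂)
  have hp := dT_pos (ν := ν) (J := J) (U := U) (pos _ h₂) t₂
  -- left slopes are nonpositive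
  have hs := (hasDerivAt_iff_tendsto_slope.1 hd).mono_left
    (nhdsWithin_mono x₂ (s := Iio x₂) (fun y hy => ne_of_lt hy))
  have : 2 * x₂ - ((2 * x₂ - 2 * Y J U x₂ * S ν J U x₂ / x₂) * (1 + Y J U x₂)
        + S ν J U x₂ * (-S ν J U x₂ / x₂)) ≤ 0 := by
    refine le_of_tendsto hs ?_
    filter_upwards [Ico_mem_nhdsLT hlt] with y hy
    rw [slope_def_field, t₂]
    have := hge ⟨hy.1, hy.2.le⟩
    apply div_nonpos_of_nonneg_of_nonpos
    · simpa using this
    · linarith [hy.2]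
  linarith

lemma U_ne (h : Sys ν J U) {a : ℝ} (ha : 0 < a) (hJ : J a = 0) : U a ≠ 0 := by
  intro h0
  have := h.spos a ha
  rw [hJ, h0] at this
  simp at this

lemma U_pos_left (h : Sys ν J U) {a b : ℝ} (ha : 0 < a) (hab : a < b) (hJ : J a = 0)
    (hp : ∀ x ∈ Ioo a b, 0 < J x) : 0 < U a := by
  have hs := (hasDerivAt_iff_tendsto_slope.1 (h.dJ a ha)).mono_left
    (nhdsWithin_mono a (s := Ioi a) (fun y hy => ne_of_gt hy))
  have h1 : 0 ≤ U a / a := by
    refine ge_of_tendsto hs ?_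
    filter_upwards [Ioo_mem_nhdsGT hab] with y hy
    rw [slope_def_field, hJ]
    have := hp y hy
    apply div_nonneg
    · linarith
    · linarith [hy.1]
  have h2 : 0 ≤ U a := by
    have := mul_nonneg h1 ha.le
    rwa [div_mul_cancel₀ _ ha.ne'] at this
  exact lt_of_le_of_ne h2 (h.U_ne ha hJ).symm

lemma U_neg_right (h : Sys ν J U) {a b : ℝ} (hb : 0 < b) (hab : a < b) (hJ : J b = 0)
    (hp : ∀ x ∈ Ioo a b, 0 < J x) : U b < 0 := by
  have hs := (hasDerivAt_iff_tendsto_slope.1 (h.dJ b hb)).mono_left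
    (nhdsWithin_mono b (s := Iio b) (fun y hy => ne_of_lt hy))
  have h1 : U b / b ≤ 0 := by
    refine le_of_tendsto hs ?_
    filter_upwards [Ioo_mem_nhdsLT hab] with y hy
    rw [slope_def_field, hJ]
    have := hp y hy
    apply div_nonpos_of_nonneg_of_nonpos
    · linarith
    · linarith [hy.2]
  have h2 : U b ≤ 0 := by
    have := mul_nonpos_of_nonpos_of_nonneg h1 hb.le
    rwa [div_mul_cancel₀ _ hb.ne'] at this
  exact lt_of_le_of_ne h2 (h.U_ne hb hJ)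

lemma contJ (h : Sys ν J U) : ContinuousOn J (Ioi 0) := fun x hx =>
  (h.dJ x hx).continuousAt.continuousWithinAt

lemma contU (h : Sys ν J U) : ContinuousOn U (Ioi 0) := fun x hx =>
  (h.dU x hx).continuousAt.continuousWithinAt

lemma exist_pos (h : Sys ν J U) {a b : ℝ} (ha : 0 < a) (hab : a < b) (hJa : J a = 0)
    (hJb : J b = 0) (hp : ∀ x ∈ Ioo a b, 0 < J x) : ∃ c ∈ Ioo a b, T ν J U c = 0 := by
  have hb : 0 < b := ha.trans hab
  have hUa := h.U_pos_left ha hab hJa hp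
  have hUb := h.U_neg_right hb hab hJb hp
  set τ : ℝ → ℝ := fun x => x ^ 2 * J x ^ 3 - ((x ^ 2 - ν ^ 2) * J x ^ 2 + U x ^ 2) * (J x + U x)
    with hτ
  have hsub : Icc a b ⊆ Ioi 0 := fun y hy => ha.trans_le hy.1
  have cJ := h.contJ.mono hsub
  have cU := h.contU.mono hsub
  have hc : ContinuousOn τ (Icc a b) := by
    have hx : ContinuousOn (fun x : ℝ => x ^ 2) (Icc a b) := by fun_prop
    have hx2 : ContinuousOn (fun x : ℝ => x ^ 2 - ν ^ 2) (Icc a b) := by fun_prop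
    exact (hx.mul (cJ.pow 3)).sub (((hx2.mul (cJ.pow 2)).add (cU.pow 2)).mul (cJ.add cU))
  have ta : τ a < 0 := by
    simp only [hτ, hJa]
    have := pow_pos hUa 3
    nlinarith
  have tb : 0 < τ b := by
    simp only [hτ, hJb]
    have : 0 < (-U b) ^ 3 := pow_pos (by linarith) 3
    nlinarith
  obtain ⟨c, hc1, hc2⟩ := intermediate_value_Ioo hab.le hc ⟨ta, tb⟩
  refine ⟨c, hc1, ?_⟩
  have hJc := hp c hc1
  have e : T ν J U c * J c ^ 3 = τ c := by
    simp only [hτ, T, S, Y]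
    field_simp
  rw [hc2] at e
  rcases mul_eq_zero.1 e with h' | h'
  · exact h'
  · exact absurd h' (by positivity)

lemma sign_const (h : Sys ν J U) {a b : ℝ} (ha : 0 ≤ a) (hne : ∀ x ∈ Ioo a b, J x ≠ 0) :
    (∀ x ∈ Ioo a b, 0 < J x) ∨ (∀ x ∈ Ioo a b, J x < 0) := by
  by_contra hcon
  push Not at hcon
  obtain ⟨⟨x, hx, hx1⟩, ⟨y, hy, hy1⟩⟩ := hcon
  have hc : ContinuousOn J (Ioo a b) := h.contJ.mono fun z hz => ha.trans_lt hz.1
  obtain ⟨z, hz, hz0⟩ := (isPreconnected_Ioo.intermediate_value hx hy hc) ⟨hx1, hy1⟩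
  exact hne z hz hz0

lemma exist (h : Sys ν J U) {a b : ℝ} (ha : 0 < a) (hab : a < b) (hJa : J a = 0)
    (hJb : J b = 0) (hne : ∀ x ∈ Ioo a b, J x ≠ 0) : ∃ c ∈ Ioo a b, T ν J U c = 0 := by
  rcases h.sign_const ha.le hne with hp | hn
  · exact h.exist_pos ha hab hJa hJb hp
  · obtain ⟨c, hc, hc1⟩ := h.neg.exist_pos ha hab (by simp [hJa]) (by simp [hJb])
      (fun x hx => by have := hn x hx; simpa using this)
    exact ⟨c, hc, by rwa [T_neg] at hc1⟩

/-- At a zero of `T` beyond `1/2`: `0 < Y < ν`, `Φ = 1/(1+Y)`, `x² Y = (ν² - Y²)(1 + Y)`. -/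
lemma crit (h : Sys ν J U) (hν : 0 < ν) {x : ℝ} (hx : 1 / 2 ≤ x) (hJ : J x ≠ 0)
    (hT : T ν J U x = 0) : 0 < Y J U x ∧ Y J U x < ν ∧ S ν J U x / x ^ 2 = 1 / (1 + Y J U x) ∧
      x ^ 2 * Y J U x = (ν ^ 2 - Y J U x ^ 2) * (1 + Y J U x) := by
  have hx0 : 0 < x := by linarith
  have hS : 0 < S ν J U x := by
    have h1 := h.spos x hx0
    have h2 : 0 < J x ^ 2 := by positivity
    have : S ν J U x = ((x ^ 2 - ν ^ 2) * J x ^ 2 + U x ^ 2) / J x ^ 2 := by
      unfold S Y; field_simp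
    rw [this]; positivity
  have hT1 : S ν J U x * (1 + Y J U x) = x ^ 2 := by unfold T at hT; linarith
  have hx2 : 0 < x ^ 2 := by positivity
  have hY1 : 0 < 1 + Y J U x := by
    by_contra hcon
    push Not at hcon
    have := mul_nonpos_of_nonneg_of_nonpos hS.le hcon
    linarith
  have hrel : x ^ 2 * Y J U x = (ν ^ 2 - Y J U x ^ 2) * (1 + Y J U x) := by
    have e : S ν J U x = x ^ 2 - ν ^ 2 + Y J U x ^ 2 := rfl
    rw [e] at hT1
    linarith
  have hx4 : 1 / 4 ≤ x ^ 2 := by nlinarith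
  set y := Y J U x
  have hy0 : 0 < y := by
    by_contra hcon
    push Not at hcon
    -- with `y ≤ 0` the relation fails
    have h1 : 0 < ν ^ 2 * (1 + y) := by positivity
    nlinarith [mul_nonneg (neg_nonneg.2 hcon) (sub_nonneg.2 hx4), sq_nonneg (y + 1 / 2),
      mul_nonneg (neg_nonneg.2 hcon) (sq_nonneg (y + 1 / 2))]
  refine ⟨hy0, ?_, ?_, hrel⟩
  · by_contra hcon
    push Not at hcon
    have h1 : ν ^ 2 - y ^ 2 ≤ 0 := by nlinarith
    have h2 := mul_nonpos_of_nonpos_of_nonneg h1 hY1.le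
    have h3 := mul_pos hx2 hy0
    linarith
  · rw [div_eq_div_iff hx2.ne' hY1.ne', hT1, one_mul]

/-- The values at the critical points increase. -/
lemma mono_crit {x₁ x₂ y₁ y₂ : ℝ} (h1 : 0 < x₁) (h12 : x₁ < x₂) (hy1 : 0 < y₁) (hy2 : 0 < y₂)
    (r1 : x₁ ^ 2 * y₁ = (ν ^ 2 - y₁ ^ 2) * (1 + y₁))
    (r2 : x₂ ^ 2 * y₂ = (ν ^ 2 - y₂ ^ 2) * (1 + y₂)) : 1 / (1 + y₁) < 1 / (1 + y₂) := by
  have hlt : y₂ < y₁ := by
    by_contra hcon
    push Not at hcon
    have hsq : x₁ ^ 2 < x₂ ^ 2 := by nlinarith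
    have e1 : x₁ ^ 2 = (ν ^ 2 - y₁ ^ 2) * (1 + y₁) / y₁ := by field_simp; linarith
    have e2 : x₂ ^ 2 = (ν ^ 2 - y₂ ^ 2) * (1 + y₂) / y₂ := by field_simp; linarith
    have : (ν ^ 2 - y₂ ^ 2) * (1 + y₂) / y₂ ≤ (ν ^ 2 - y₁ ^ 2) * (1 + y₁) / y₁ := by
      have f1 : (ν ^ 2 - y₁ ^ 2) * (1 + y₁) / y₁ = ν ^ 2 * (1 / y₁) + ν ^ 2 - y₁ - y₁ ^ 2 := by
        field_simp; ring
      have f2 : (ν ^ 2 - y₂ ^ 2) * (1 + y₂) / y₂ = ν ^ 2 * (1 / y₂) + ν ^ 2 - y₂ - y₂ ^ 2 := by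
        field_simp; ring
      have f3 : 1 / y₂ ≤ 1 / y₁ := one_div_le_one_div_of_le hy1 hcon
      have f4 : ν ^ 2 * (1 / y₂) ≤ ν ^ 2 * (1 / y₁) := by gcongr
      have f5 : y₁ ^ 2 ≤ y₂ ^ 2 := by gcongr
      rw [f1, f2]
      linarith
    rw [← e1, ← e2] at this
    linarith
  apply one_div_lt_one_div_of_lt <;> linarith

/-- There are arbitrarily large zeros. -/
lemma zeros_unbdd (h : Sys ν J U) (R : ℝ) : ∃ z, R < z ∧ 0 < z ∧ J z = 0 := by
  by_contra hcon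
  push Not at hcon
  set R₁ : ℝ := |R| + |ν| + 2 with hR1
  have hpos : 0 < R₁ := by positivity
  have hne : ∀ x, R₁ ≤ x → J x ≠ 0 := fun x hx => hcon x
    (by have := le_abs_self R; have := abs_nonneg ν; linarith) (by linarith)
  have hx2 : ∀ x, R₁ ≤ x → 1 ≤ x ^ 2 - ν ^ 2 := by
    intro x hx
    have h1 : |ν| + 2 ≤ x := by have := abs_nonneg R; linarith
    have h2 := abs_nonneg ν
    have h3 : ν ^ 2 = |ν| ^ 2 := (sq_abs ν).symm
    rw [h3]
    nlinarith
  set g : ℝ → ℝ := fun x => Real.arctan (Y J U x) + Real.log x with hg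
  have hd : ∀ x, R₁ ≤ x → HasDerivAt g (1 / (1 + Y J U x ^ 2) * (-S ν J U x / x) + x⁻¹) x :=
    fun x hx => ((h.dY (hpos.trans_le hx) (hne x hx)).arctan).add
      (Real.hasDerivAt_log (hpos.trans_le hx).ne')
  have hanti : AntitoneOn g (Ici R₁) := by
    apply antitoneOn_of_deriv_nonpos (convex_Ici R₁)
    · exact fun x hx => (hd x hx).continuousAt.continuousWithinAt
    · intro x hx
      rw [interior_Ici] at hx
      exact (hd x (le_of_lt hx)).differentiableAt.differentiableWithinAt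
    · intro x hx
      rw [interior_Ici] at hx
      have hx' : R₁ ≤ x := le_of_lt hx
      have hx0 : 0 < x := hpos.trans_le hx'
      rw [(hd x hx').deriv]
      have h1 := hx2 x hx'
      have h2 : 0 < 1 + Y J U x ^ 2 := by positivity
      have h3 : 1 + Y J U x ^ 2 ≤ S ν J U x := by unfold S; linarith
      have e : 1 / (1 + Y J U x ^ 2) * (-S ν J U x / x) + x⁻¹
          = ((1 + Y J U x ^ 2) - S ν J U x) / ((1 + Y J U x ^ 2) * x) := by
        field_simp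
        ring
      rw [e]
      exact div_nonpos_of_nonpos_of_nonneg (by linarith) (by positivity)
  have hlog : ∀ x, R₁ ≤ x → Real.log x ≤ g R₁ + Real.pi / 2 := by
    intro x hx
    have h1 : g x ≤ g R₁ := hanti (mem_Ici.2 le_rfl) (mem_Ici.2 hx) hx
    have h2 := Real.neg_pi_div_two_lt_arctan (Y J U x)
    have h3 : g x = Real.arctan (Y J U x) + Real.log x := rfl
    linarith
  have ht := Real.tendsto_log_atTop.eventually_gt_atTop (g R₁ + Real.pi / 2)
  obtain ⟨x, hx1, hx2⟩ := (ht.and (eventually_ge_atTop R₁)).exists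
  linarith [hlog x hx2]

/-- Finitely many zeros in `[δ, R]`. -/
lemma zeros_fin (h : Sys ν J U) {δ : ℝ} (hδ : 0 < δ) (R : ℝ) :
    ({z | J z = 0} ∩ Icc δ R).Finite := by
  by_contra hinf
  obtain ⟨c, hc, hacc⟩ := Set.Infinite.exists_accPt_of_subset_isCompact (K := Icc δ R) hinf
    isCompact_Icc inter_subset_right
  have hc0 : 0 < c := hδ.trans_le hc.1
  have hfr : ∃ᶠ y in 𝓝[≠] c, J y = 0 := by
    have := accPt_iff_frequently.1 hacc
    rw [frequently_nhdsWithin_iff]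
    refine this.mono fun y hy => ⟨hy.2.1, hy.1⟩
  have hJc : J c = 0 := by
    by_contra hne
    have : ∀ᶠ y in 𝓝 c, J y ≠ 0 := (h.dJ c hc0).continuousAt.eventually_ne hne
    exact hfr (this.filter_mono nhdsWithin_le_nhds)
  have hU := h.U_ne hc0 hJc
  have := (h.dJ c hc0).eventually_ne (c := 0) (div_ne_zero hU hc0.ne')
  exact hfr this

end Sys

/-- Enumeration of a locally finite unbounded set of positive numbers. -/
lemma enum (Z : Set ℝ) (hpos : ∀ z ∈ Z, 0 < z) (hub : ∀ R, ∃ z ∈ Z, R < z)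
    (hfin : ∀ R, (Z ∩ Iic R).Finite) :
    ∃ j : ℕ → ℝ, StrictMono j ∧ range j = Z ∧ (∀ x, 0 < x → x < j 0 → x ∉ Z) ∧
      ∀ n, ∀ x ∈ Ioo (j n) (j (n + 1)), x ∉ Z := by
  have hnext : ∀ a : ℝ, ∃ b ∈ Z, a < b ∧ ∀ z ∈ Z, a < z → b ≤ z := by
    intro a
    obtain ⟨z, hz, haz⟩ := hub a
    have hf : (Z ∩ Iic z ∩ Ioi a).Finite := (hfin z).subset inter_subset_left
    obtain ⟨b, hb, hmin⟩ := Set.exists_min_image _ (fun x => x) hf ⟨z, ⟨hz, mem_Iic.2 le_rfl⟩, haz⟩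
    refine ⟨b, hb.1.1, hb.2, fun w hw haw => ?_⟩
    by_cases hwz : w ≤ z
    · exact hmin w ⟨⟨hw, hwz⟩, haw⟩
    · exact (hb.1.2 : b ≤ z).trans (le_of_lt (not_le.1 hwz))
  choose next hnZ hlt hmin using hnext
  set j : ℕ → ℝ := fun n => Nat.rec (next 0) (fun _ r => next r) n with hj
  have j0 : j 0 = next 0 := rfl
  have js : ∀ n, j (n + 1) = next (j n) := fun n => rfl
  have hZ : ∀ n, j n ∈ Z := by
    intro n
    cases n with
    | zero => rw [j0]; exact hnZ 0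
    | succ n => rw [js]; exact hnZ _
  have hmono : StrictMono j := strictMono_nat_of_lt_succ fun n => by rw [js]; exact hlt _
  refine ⟨j, hmono, ?_, ?_, ?_⟩
  · apply Subset.antisymm
    · rintro _ ⟨n, rfl⟩; exact hZ n
    · intro z hz
      by_contra hnr
      have hall : ∀ n, j n < z := by
        intro n
        have hne : j n ≠ z := fun h => hnr ⟨n, h⟩
        refine lt_of_le_of_ne ?_ hne
        induction n with
        | zero => rw [j0]; exact hmin 0 z hz (hpos z hz)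
        | succ n ih =>
          rw [js]
          exact hmin _ z hz (lt_of_le_of_ne (ih (fun h => hnr ⟨n, h⟩)) (fun h => hnr ⟨n, h⟩))
      have : (Z ∩ Iic z).Infinite := Set.infinite_of_injective_forall_mem hmono.injective
        (fun n => ⟨hZ n, (hall n).le⟩)
      exact this (hfin z)
  · intro x hx hx0 hxZ
    rw [j0] at hx0
    exact absurd (hmin 0 x hxZ hx) (not_le.2 hx0)
  · intro n x hx hxZ
    rw [js] at hx
    exact absurd (hmin _ x hxZ hx.1) (not_le.2 hx.2)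

end Pool.Agent.Q161.Bes
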